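import Pool.Agent.Helper35.PI2.St

/-! # Project PI2, module LL: real and extended area integrals -/

namespace Helper79.PI2

open Helper35.PI Helper35.PI2
open scoped ContDiff Manifold Topology ENNReal BigOperators
open MeasureTheory Set Filter

theorem hLL : StLL := by
  intro n N M _ _ _ F c χ hPU t s g hg hout hint
  have hnn : ∀ i y, 0 ≤ χ i ((chartAt (EE n) (c i)).symm y) *
      (g ((chartAt (EE n) (c i)).symm y) * sgm (loc (n := n) F (c i) t) y) := by
    intro i y
    exact mul_nonneg (hPU.nonneg _ _) (mul_nonneg (hg _) (Real.sqrt_nonneg _))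
  have hpt : ∀ i y, ENNReal.ofReal (χ i ((chartAt (EE n) (c i)).symm y)) *
      ENNReal.ofReal (g ((chartAt (EE n) (c i)).symm y)) *
      ENNReal.ofReal (sgm (loc (n := n) F (c i) t) y) =
      ENNReal.ofReal (χ i ((chartAt (EE n) (c i)).symm y) *
      (g ((chartAt (EE n) (c i)).symm y) * sgm (loc (n := n) F (c i) t) y)) := by
    intro i y
    rw [ENNReal.ofReal_mul (hPU.nonneg _ _), ENNReal.ofReal_mul (hg _), mul_assoc]
  have hterm : ∀ i, ∫⁻ y in (chartAt (EE n) (c i)).target,
      ENNReal.ofReal (χ i ((chartAt (EE n) (c i)).symm y)) *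
      ENNReal.ofReal (g ((chartAt (EE n) (c i)).symm y)) *
      ENNReal.ofReal (sgm (loc (n := n) F (c i) t) y) =
      ∫⁻ y in (chartAt (EE n) (c i)).target,
      ENNReal.ofReal (χ i ((chartAt (EE n) (c i)).symm y) *
      (g ((chartAt (EE n) (c i)).symm y) * sgm (loc (n := n) F (c i) t) y)) := by
    intro i
    exact lintegral_congr fun y => hpt i y
  refine ⟨?_, ?_⟩
  · unfold Lam Ls
    rw [tsum_eq_sum (s := s)]
    · rw [ENNReal.ofReal_sum_of_nonneg]
      · refine Finset.sum_congr rfl fun i hi => ?_
        rw [hterm i]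
        exact (ofReal_integral_eq_lintegral_ofReal (hint i hi)
          (Filter.Eventually.of_forall fun y => hnn i y)).symm
      · intro i _
        exact integral_nonneg fun y => hnn i y
    · intro i hi
      rw [hterm i]
      have : ∀ y, χ i ((chartAt (EE n) (c i)).symm y) *
          (g ((chartAt (EE n) (c i)).symm y) * sgm (loc (n := n) F (c i) t) y) = 0 := by
        intro y
        rw [← mul_assoc, hout i hi, zero_mul]
      simp [this]
  · unfold Ls
    exact Finset.sum_nonneg fun i _ => integral_nonneg fun y => hnn i y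

end Helper79.PI2
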